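import Mathlib

set_option autoImplicit false

namespace Pool.Agent.H.MP_d2274e_an

open Filter Topology Set

variable {V : Type*} [NormedAddCommGroup V] [NormedSpace ℝ V]

theorem exists_deriv [FiniteDimensional ℝ V] {G : Set V} (hG : IsOpen G) (hc : Convex ℝ G)
    {ω : ℝ → ℝ} (lim : Tendsto ω (𝓝 0) (𝓝 0)) (nn : ∀ t, 0 ≤ t → 0 ≤ ω t) {f : V → ℝ}
    (H : ∀ x ∈ G, ∀ y ∈ G, ∀ l ∈ Icc (0:ℝ) 1,
      |f (l • x + (1 - l) • y) - l * f x - (1 - l) * f y| ≤ l * (1 - l) * ‖x - y‖ * ω ‖x - y‖)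
    {p : V} (hp : p ∈ G) :
    ∃ L : V →L[ℝ] ℝ, HasFDerivAt f L p ∧ ∀ z ∈ G, |f z - f p - L (z - p)| ≤ ‖z - p‖ * ω ‖z - p‖ := by
  set D : V → ℝ → ℝ := fun v s => (f (p + s • v) - f p) / s with hD
  have key : ∀ v r s, 0 < r → r ≤ s → p + s • v ∈ G → |D v r - D v s| ≤ ‖v‖ * ω (s * ‖v‖) := by
    intro v r s hr hrs hs
    have s0 : 0 < s := lt_of_lt_of_le hr hrs
    have hl : r / s ∈ Icc (0:ℝ) 1 := ⟨by positivity, (div_le_one s0).2 hrs⟩
    have h := H _ hs p hp (r / s) hl
    have e1 : (r / s) • (p + s • v) + (1 - r / s) • p = p + r • v := by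
      rw [smul_add, smul_smul, div_mul_cancel₀ _ s0.ne', sub_smul, one_smul]; abel
    have e2 : ‖p + s • v - p‖ = s * ‖v‖ := by
      rw [add_sub_cancel_left, norm_smul, Real.norm_of_nonneg s0.le]
    rw [e1, e2] at h
    have e3 : D v r - D v s = (f (p + r • v) - r / s * f (p + s • v) - (1 - r / s) * f p) / r := by
      simp only [hD]; field_simp; ring
    rw [e3, abs_div, abs_of_pos hr, div_le_iff₀ hr]
    refine h.trans ?_
    have w := nn (s * ‖v‖) (by positivity)
    have : r / s * (1 - r / s) * (s * ‖v‖) * ω (s * ‖v‖)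
        = (1 - r / s) * (‖v‖ * ω (s * ‖v‖) * r) := by field_simp
    rw [this]
    have : 0 ≤ ‖v‖ * ω (s * ‖v‖) * r := by positivity
    nlinarith [hl.1]
  have evG : ∀ v : V, ∀ᶠ s in 𝓝 (0:ℝ), p + s • v ∈ G := fun v => by
    have c : Continuous fun s : ℝ => p + s • v := by fun_prop
    exact c.continuousAt.eventually (hG.mem_nhds (by simpa using hp))
  have evω : ∀ c : ℝ, Tendsto (fun s : ℝ => ω (s * c)) (𝓝 0) (𝓝 0) := fun c => by
    have : Tendsto (fun s : ℝ => s * c) (𝓝 0) (𝓝 0) := by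
      simpa using (tendsto_id (x := 𝓝 (0:ℝ))).mul_const c
    exact lim.comp this
  have ex : ∀ v, ∃ a, Tendsto (D v) (𝓝[>] 0) (𝓝 a) := by
    intro v
    refine cauchy_map_iff_exists_tendsto.1 (Metric.cauchy_iff.2 ⟨inferInstance, fun ε hε => ?_⟩)
    have t1 : Tendsto (fun s : ℝ => ‖v‖ * ω (s * ‖v‖)) (𝓝 0) (𝓝 0) := by
      simpa using (evω ‖v‖).const_mul ‖v‖
    have e : ∀ᶠ s in 𝓝[>] (0:ℝ), (p + s • v ∈ G ∧ ‖v‖ * ω (s * ‖v‖) < ε / 2) ∧ 0 < s :=
      (((evG v).and (t1.eventually (gt_mem_nhds (by positivity)))).filter_mono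
        nhdsWithin_le_nhds).and self_mem_nhdsWithin
    obtain ⟨s, ⟨h1, h2⟩, h3⟩ := e.exists
    refine ⟨{a | |a - D v s| < ε / 2}, ?_, fun x hx y hy => ?_⟩
    · rw [mem_map]
      filter_upwards [Ioc_mem_nhdsGT h3] with r hr
      exact lt_of_le_of_lt (key v r s hr.1 hr.2 h1) h2
    · rw [Real.dist_eq]
      simp only [mem_setOf_eq, abs_lt] at hx hy ⊢
      constructor <;> linarith [hx.1, hx.2, hy.1, hy.2]
  choose L hL using ex
  have bd : ∀ v s, 0 < s → p + s • v ∈ G → |L v - D v s| ≤ ‖v‖ * ω (s * ‖v‖) := by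
    intro v s h3 h1
    refine le_of_tendsto (((hL v).sub_const (D v s)).abs) ?_
    filter_upwards [Ioc_mem_nhdsGT h3] with r hr
    exact key v r s hr.1 hr.2 h1
  have sc : ∀ c : ℝ, 0 < c → Tendsto (fun s : ℝ => s * c) (𝓝[>] 0) (𝓝[>] 0) := fun c hc0 => by
    refine tendsto_nhdsWithin_iff.2 ⟨?_, ?_⟩
    · have : Tendsto (fun s : ℝ => s * c) (𝓝 0) (𝓝 0) := by
        simpa using (tendsto_id (x := 𝓝 (0:ℝ))).mul_const c
      exact this.mono_left nhdsWithin_le_nhds
    · filter_upwards [self_mem_nhdsWithin] with s hs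
      exact mul_pos hs hc0
  have hom : ∀ (c : ℝ) v, 0 < c → L (c • v) = c * L v := by
    intro c v hc0
    refine tendsto_nhds_unique (hL (c • v)) ?_
    refine (((hL v).comp (sc c hc0)).const_mul c).congr' ?_
    filter_upwards [self_mem_nhdsWithin] with s hs
    have hs' : (0:ℝ) < s := hs
    simp only [hD, Function.comp, smul_smul]
    field_simp
  have add : ∀ u v, L (u + v) = L u + L v := by
    intro u v
    have t1 := ((hL (u + v)).sub ((hL u).comp (sc 2 two_pos))).sub ((hL v).comp (sc 2 two_pos))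
    have t2 : Tendsto (fun s : ℝ => ‖u - v‖ * ω (s * (2 * ‖u - v‖))) (𝓝[>] 0) (𝓝 0) := by
      have := (evω (2 * ‖u - v‖)).const_mul ‖u - v‖
      rw [mul_zero] at this
      exact this.mono_left nhdsWithin_le_nhds
    have : |L (u + v) - L u - L v| ≤ 0 := by
      refine le_of_tendsto_of_tendsto t1.abs t2 ?_
      filter_upwards [self_mem_nhdsWithin,
        (evG ((2:ℝ) • u)).filter_mono nhdsWithin_le_nhds,
        (evG ((2:ℝ) • v)).filter_mono nhdsWithin_le_nhds] with s hs hu hv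
      have hs' : (0:ℝ) < s := hs
      rw [smul_smul] at hu hv
      have h := H _ hu _ hv (1/2) ⟨by norm_num, by norm_num⟩
      have e1 : (1/2:ℝ) • (p + (s * 2) • u) + (1 - 1/2:ℝ) • (p + (s * 2) • v) = p + s • (u + v) := by
        module
      have e2 : ‖p + (s * 2) • u - (p + (s * 2) • v)‖ = s * (2 * ‖u - v‖) := by
        rw [add_sub_add_left_eq_sub, ← smul_sub, norm_smul, Real.norm_of_nonneg (by positivity)]
        ring
      rw [e1, e2] at h
      have e3 : D (u + v) s - D u (s * 2) - D v (s * 2) = (f (p + s • (u + v))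
          - 1/2 * f (p + (s * 2) • u) - (1 - 1/2) * f (p + (s * 2) • v)) / s := by
        simp only [hD]; field_simp; ring
      show |D (u + v) s - D u (s * 2) - D v (s * 2)| ≤ _
      rw [e3, abs_div, abs_of_pos hs', div_le_iff₀ hs']
      refine h.trans ?_
      have w := nn (s * (2 * ‖u - v‖)) (by positivity)
      have : 0 ≤ ‖u - v‖ * ω (s * (2 * ‖u - v‖)) * s := by positivity
      nlinarith
    have := abs_nonpos_iff.1 this
    linarith
  have z0 : L 0 = 0 := by have := add 0 0; rw [add_zero] at this; linarith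
  have ng : ∀ v, L (-v) = -L v := fun v => by
    have := add v (-v); rw [add_neg_cancel, z0] at this; linarith
  have hsm : ∀ (c : ℝ) v, L (c • v) = c * L v := by
    intro c v
    rcases lt_trichotomy c 0 with h | h | h
    · have := hom (-c) v (by linarith)
      rw [neg_smul, ng] at this; linarith
    · rw [h, zero_smul, z0, zero_mul]
    · exact hom c v h
  let Ll : V →ₗ[ℝ] ℝ := { toFun := L, map_add' := add, map_smul' := hsm }
  have fin : ∀ z ∈ G, |f z - f p - L (z - p)| ≤ ‖z - p‖ * ω ‖z - p‖ := by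
    intro z hz
    have := bd (z - p) 1 one_pos (by simpa using hz)
    simp only [hD, one_smul, add_sub_cancel, div_one, one_mul] at this
    rw [abs_sub_comm]; exact this
  refine ⟨LinearMap.toContinuousLinearMap Ll, ?_, fin⟩
  rw [hasFDerivAt_iff_isLittleO_nhds_zero, Asymptotics.isLittleO_iff]
  intro c hc0
  have c1 : Continuous fun h : V => p + h := by fun_prop
  have t : Tendsto (fun h : V => ω ‖h‖) (𝓝 0) (𝓝 0) := lim.comp tendsto_norm_zero
  filter_upwards [c1.continuousAt.eventually (hG.mem_nhds (by simpa using hp)),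
    t.eventually (gt_mem_nhds hc0)] with h h1 h2
  have := fin _ h1
  rw [add_sub_cancel_left] at this
  refine le_trans this ?_
  nlinarith [norm_nonneg h]

/-- local estimate from a ball near both points -/
theorem local_est {G : Set V} {ω : ℝ → ℝ} (mono : ∀ s t, 0 ≤ s → s ≤ t → ω s ≤ ω t)
    (nn : ∀ t, 0 ≤ t → 0 ≤ ω t) {f : V → ℝ} {p q z : V} {L M : V →L[ℝ] ℝ} {δ R : ℝ} (hδ : 0 < δ)
    (hp : ∀ z ∈ G, |f z - f p - L (z - p)| ≤ ‖z - p‖ * ω ‖z - p‖)
    (hq : ∀ z ∈ G, |f z - f q - M (z - q)| ≤ ‖z - q‖ * ω ‖z - q‖)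
    (hz : ∀ u : V, ‖u‖ ≤ 1 → z + δ • u ∈ G) (h1 : ‖z - p‖ + δ ≤ R) (h2 : ‖z - q‖ + δ ≤ R) :
    ‖L - M‖ ≤ 4 * R * ω R / δ := by
  have R0 : 0 ≤ R := by linarith [norm_nonneg (z - p)]
  have b : ∀ (w : V) (u : V), ‖u‖ ≤ 1 → ‖z - w‖ + δ ≤ R →
      ‖z + δ • u - w‖ * ω ‖z + δ • u - w‖ ≤ R * ω R := by
    intro w u hu hw
    have : ‖z + δ • u - w‖ ≤ R := by
      have e : z + δ • u - w = (z - w) + δ • u := by abel
      rw [e]
      refine (norm_add_le _ _).trans ?_
      rw [norm_smul, Real.norm_of_nonneg hδ.le]; nlinarith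
    exact mul_le_mul this (mono _ _ (norm_nonneg _) this) (nn _ (norm_nonneg _)) R0
  refine ContinuousLinearMap.opNorm_le_of_unit_norm (by have := nn R R0; positivity) fun u hu => ?_
  have a1 := (hp _ (hz u hu.le)).trans (b p u hu.le h1)
  have a2 := (hq _ (hz u hu.le)).trans (b q u hu.le h2)
  have a3 := (hp _ (hz 0 (by simp))).trans (b p 0 (by simp) h1)
  have a4 := (hq _ (hz 0 (by simp))).trans (b q 0 (by simp) h2)
  have e1 : L (z + δ • u - p) = L (z - p) + δ * L u := by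
    rw [show z + δ • u - p = (z - p) + δ • u by abel, map_add, map_smul, smul_eq_mul]
  have e2 : M (z + δ • u - q) = M (z - q) + δ * M u := by
    rw [show z + δ • u - q = (z - q) + δ • u by abel, map_add, map_smul, smul_eq_mul]
  rw [e1] at a1; rw [e2] at a2
  rw [smul_zero, add_zero] at a3 a4
  rw [ContinuousLinearMap.sub_apply, Real.norm_eq_abs, le_div_iff₀ hδ, ← abs_of_pos hδ,
    ← abs_mul]
  rw [abs_le] at *
  constructor <;> nlinarith [a1.1, a1.2, a2.1, a2.2, a3.1, a3.2, a4.1, a4.2]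

/-- chaining along a segment -/
theorem chain {W : Type*} [NormedAddCommGroup W] (F : V → W) (a b : V) {δ B : ℝ} (hδ : 0 < δ)
    (hB : 0 ≤ B)
    (h : ∀ x ∈ segment ℝ a b, ∀ y ∈ segment ℝ a b, ‖x - y‖ ≤ δ → ‖F x - F y‖ ≤ B) :
    ‖F a - F b‖ ≤ (‖a - b‖ / δ + 1) * B := by
  set N : ℕ := ⌊‖a - b‖ / δ⌋₊ + 1 with hN
  have N0 : (0:ℝ) < N := by rw [hN]; positivity
  have N1 : ‖a - b‖ / δ ≤ N := by rw [hN]; push_cast; exact (Nat.lt_floor_add_one _).le
  have N2 : (N:ℝ) ≤ ‖a - b‖ / δ + 1 := by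
    rw [hN]; push_cast; have := Nat.floor_le (a := ‖a - b‖ / δ) (by positivity); linarith
  let x : ℕ → V := fun k => a + ((k:ℝ) / N) • (b - a)
  have hx : ∀ k ≤ N, x k ∈ segment ℝ a b := fun k hk => by
    rw [segment_eq_image']
    exact ⟨k / N, ⟨by positivity, (div_le_one N0).2 (by exact_mod_cast hk)⟩, rfl⟩
  have ind : ∀ k ≤ N, ‖F a - F (x k)‖ ≤ k * B := by
    intro k
    induction k with
    | zero => intro _; simp [x]
    | succ k ih =>
      intro hk
      have s := h _ (hx k (by omega)) _ (hx (k+1) hk) (by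
        have e : x k - x (k+1) = (1 / (N:ℝ)) • (a - b) := by
          simp only [x]; push_cast; rw [add_div]; module
        rw [e, norm_smul, Real.norm_of_nonneg (by positivity)]
        rw [div_le_iff₀ hδ] at N1
        rw [one_div, inv_mul_le_iff₀ N0]; exact N1)
      have := norm_sub_le_norm_sub_add_norm_sub (F a) (F (x k)) (F (x (k+1)))
      have := ih (by omega)
      push_cast; linarith
  have := ind N le_rfl
  have e : x N = b := by simp only [x]; rw [div_self N0.ne']; simp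
  rw [e] at this
  exact this.trans (mul_le_mul_of_nonneg_right N2 hB)

end Pool.Agent.H.MP_d2274e_an
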