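import Pool.Agent.H.MP_d2274e_an.A

set_option autoImplicit false

namespace Pool.Agent.H.MP_d2274e_an

open Filter Topology Set

noncomputable def om (t : ℝ) : ℝ := t / (2 + Real.log (1 + t))

theorem lg {t : ℝ} (h : 0 ≤ t) : 0 ≤ Real.log (1 + t) := Real.log_nonneg (by linarith)

theorem om_nn (t : ℝ) (h : 0 ≤ t) : 0 ≤ om t := by
  have := lg h; unfold om; positivity

theorem om_mono (s t : ℝ) (h : 0 ≤ s) (hst : s ≤ t) : om s ≤ om t := by
  have a := lg h
  have b := lg (h.trans hst)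
  have c : Real.log (1 + t) - Real.log (1 + s) ≤ (t - s) / (1 + s) := by
    rw [← Real.log_div (by linarith) (by linarith)]
    refine (Real.log_le_sub_one_of_pos (by have := h.trans hst; positivity)).trans (le_of_eq ?_)
    field_simp; ring
  have d : s * ((t - s) / (1 + s)) ≤ t - s := by
    rw [← mul_div_assoc, div_le_iff₀ (by linarith)]; nlinarith
  unfold om
  rw [div_le_div_iff₀ (by linarith) (by linarith)]
  nlinarith [mul_le_mul_of_nonneg_left c h, mul_nonneg (sub_nonneg.2 hst) a]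

theorem om_mul (c t : ℝ) (hc : 1 ≤ c) (h : 0 ≤ t) : om (c * t) ≤ c * om t := by
  have a := lg h
  have b : Real.log (1 + t) ≤ Real.log (1 + c * t) := Real.log_le_log (by linarith) (by nlinarith)
  unfold om
  rw [← mul_div_assoc]
  exact div_le_div_of_nonneg_left (by positivity) (by linarith) (by linarith)

theorem om_lim : Tendsto om (𝓝 0) (𝓝 0) := by
  have : ContinuousAt om 0 := by
    unfold om
    refine continuousAt_id.div (continuousAt_const.add (ContinuousAt.log (by fun_prop) (by norm_num)))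
      (by simp)
  have h := this.tendsto
  rwa [show om 0 = 0 by simp [om]] at h

theorem om_concave : ConcaveOn ℝ (Ici 0) om := by
  have dL : ∀ t : ℝ, 0 < t → HasDerivAt (fun t => 2 + Real.log (1 + t)) (1 / (1 + t)) t :=
    fun t ht => (((hasDerivAt_id t).const_add 1).log (by simp; linarith)).const_add 2
  refine concaveOn_of_hasDerivWithinAt2_nonpos (convex_Ici 0)
    (f' := fun t => (1 * (2 + Real.log (1 + t)) - t * (1 / (1 + t))) / (2 + Real.log (1 + t)) ^ 2)
    (f'' := fun t => (2 * t - (2 + t) * (2 + Real.log (1 + t)))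
      / ((1 + t) ^ 2 * (2 + Real.log (1 + t)) ^ 3)) ?_ ?_ ?_ ?_
  · intro t ht
    have h : (0:ℝ) ≤ t := ht
    have := lg h
    refine ContinuousAt.continuousWithinAt ?_
    unfold om
    exact continuousAt_id.div (continuousAt_const.add (ContinuousAt.log (by fun_prop) (by linarith)))
      (by linarith)
  · intro t ht
    rw [interior_Ici] at ht
    have h : (0:ℝ) < t := ht
    have := lg h.le
    exact ((hasDerivAt_id t).div (dL t h) (by linarith)).hasDerivWithinAt
  · intro t ht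
    rw [interior_Ici] at ht
    have h : (0:ℝ) < t := ht
    have l := lg h.le
    have d1 : HasDerivAt (fun t : ℝ => 1 / (1 + t)) ((0 * (1 + t) - 1 * 1) / (1 + t) ^ 2) t :=
      (hasDerivAt_const t (1:ℝ)).div ((hasDerivAt_id t).const_add 1) (by linarith)
    have d := ((((dL t h).const_mul 1).sub ((hasDerivAt_id t).mul d1)).div ((dL t h).pow 2)
      (pow_ne_zero 2 (by linarith : 2 + Real.log (1 + t) ≠ 0)))
    refine (d.congr_deriv ?_).hasDerivWithinAt
    simp only [id, Pi.pow_apply, Pi.sub_apply, Pi.mul_apply]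
    have : (1 + t) ≠ 0 := by linarith
    have : 2 + Real.log (1 + t) ≠ 0 := by linarith
    field_simp
    push_cast
    ring
  · intro t ht
    rw [interior_Ici] at ht
    have h : (0:ℝ) < t := ht
    have l := lg h.le
    refine div_nonpos_of_nonpos_of_nonneg (by nlinarith) (by positivity)

theorem om_zero : ∀ᶠ t in 𝓝[>] (0:ℝ), (1/3:ℝ) ≤ om t / t := by
  filter_upwards [Ioc_mem_nhdsGT (one_pos : (0:ℝ) < 1)] with t ht
  have a := lg ht.1.le
  have b : Real.log (1 + t) ≤ 1 := by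
    have := Real.log_le_sub_one_of_pos (x := 1 + t) (by linarith [ht.1]); linarith [ht.2]
  have c := ht.1
  unfold om
  rw [div_div_cancel_left' c.ne', ← one_div]
  exact one_div_le_one_div_of_le (by linarith) (by linarith)

theorem om_top : Tendsto (fun t => om t / t) atTop (𝓝 0) := by
  have h : Tendsto (fun t : ℝ => 2 + Real.log (1 + t)) atTop atTop :=
    tendsto_atTop_add_const_left _ _
      (Real.tendsto_log_atTop.comp (tendsto_atTop_add_const_left _ _ tendsto_id))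
  refine h.inv_tendsto_atTop.congr' ?_
  filter_upwards [eventually_gt_atTop 0] with t ht
  unfold om
  rw [div_div_cancel_left' ht.ne']; rfl

theorem om_four (s : ℝ) (hs : 1 ≤ s) :
    s ^ 2 ≤ 6 * om (s ^ 4) ∧ s ^ 3 * om s ≤ 4 * om (s ^ 4) := by
  have a := lg (t := s) (by linarith)
  have b := lg (t := s ^ 4) (by positivity)
  have c : Real.log (1 + s ^ 4) ≤ 4 * Real.log (1 + s) := by
    have := Real.log_pow (1 + s) 4
    push_cast at this
    rw [← this]
    refine Real.log_le_log (by positivity) ?_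
    have : 0 ≤ s := by linarith
    have e : (1 + s) ^ 4 = 1 + s ^ 4 + (4 * s + 6 * s ^ 2 + 4 * s ^ 3) := by ring
    rw [e]; exact le_add_of_nonneg_right (by positivity)
  have d : Real.log (1 + s) ≤ s := by
    have := Real.log_le_sub_one_of_pos (x := 1 + s) (by linarith); linarith
  unfold om
  constructor
  · rw [← mul_div_assoc, le_div_iff₀ (by linarith)]
    have : 2 + Real.log (1 + s ^ 4) ≤ 6 * s ^ 2 := by nlinarith
    nlinarith [mul_le_mul_of_nonneg_left this (sq_nonneg s)]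
  · rw [← mul_div_assoc, ← mul_div_assoc, div_le_div_iff₀ (by linarith) (by linarith)]
    have : 0 ≤ s ^ 4 := by positivity
    have e : s ^ 3 * s = s ^ 4 := by ring
    rw [e]
    nlinarith [mul_le_mul_of_nonneg_left c this]

variable {V : Type*} [NormedAddCommGroup V] [NormedSpace ℝ V]

structure Split (P : V →ₗ[ℝ] V) (h : V →ₗ[ℝ] ℝ) (e : V) : Prop where
  Pe : P e = 0
  he : h e = 1
  PP : ∀ x, P (P x) = P x
  hP : ∀ x, h (P x) = 0
  nP : ∀ x, ‖P x‖ ≤ ‖x‖
  nh : ∀ x, |h x| ≤ ‖x‖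
  ne : ‖e‖ = 1

def Par (P : V →ₗ[ℝ] V) (h : V →ₗ[ℝ] ℝ) : Set V := {p | ‖P p‖ ^ 2 < h p}

variable {P : V →ₗ[ℝ] V} {h : V →ₗ[ℝ] ℝ} {e : V}

theorem par_convex : Convex ℝ (Par P h) := by
  intro x hx y hy a b ha hb hab
  simp only [Par, mem_setOf_eq, map_add, map_smul, smul_eq_mul] at *
  have n : ‖a • P x + b • P y‖ ≤ a * ‖P x‖ + b * ‖P y‖ := by
    refine (norm_add_le _ _).trans ?_
    rw [norm_smul, norm_smul, Real.norm_of_nonneg ha, Real.norm_of_nonneg hb]
  have n2 := pow_le_pow_left₀ (norm_nonneg _) n 2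
  have q : (a * ‖P x‖ + b * ‖P y‖) ^ 2 ≤ a * ‖P x‖ ^ 2 + b * ‖P y‖ ^ 2 := by
    have : b = 1 - a := by linarith
    subst this
    nlinarith [mul_nonneg (mul_nonneg ha hb) (sq_nonneg (‖P x‖ - ‖P y‖))]
  rcases eq_or_lt_of_le ha with h0 | h0
  · have : b = 1 := by linarith
    subst h0; subst this; simpa using hy
  · nlinarith [mul_lt_mul_of_pos_left hx h0, mul_le_mul_of_nonneg_left hy.le hb]

theorem par_up (S : Split P h e) {p : V} (hp : p ∈ Par P h) {c : ℝ} (hc : 0 ≤ c) :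
    p + c • e ∈ Par P h := by
  simp only [Par, mem_setOf_eq, map_add, map_smul, smul_eq_mul, S.Pe, S.he] at *
  rw [smul_zero, add_zero]; linarith

theorem par_ball (S : Split P h e) {p : V} (hp : p ∈ Par P h) {δ : ℝ} (hδ : 0 < δ)
    (hc : δ ≤ 1 ∨ δ ^ 2 ≤ h p) :
    ∃ z, ‖z - p‖ ≤ 5 * δ ∧ ∀ u : V, ‖u‖ ≤ 1 → z + δ • u ∈ Par P h := by
  have hp' : ‖P p‖ ^ 2 < h p := hp
  have gen : ∀ (a b ρ : ℝ), a ≤ 1 → (1 - a) * ‖P p‖ + δ ≤ ρ → ρ ^ 2 < h p + b - δ →
      ∀ u : V, ‖u‖ ≤ 1 → p - a • P p + b • e + δ • u ∈ Par P h := by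
    intro a b ρ ha h1 h2 u hu
    simp only [Par, mem_setOf_eq, map_add, map_sub, map_smul, smul_eq_mul, S.Pe, S.he, S.PP, S.hP]
    have n : ‖P p - a • P p + b • (0:V) + δ • P u‖ ≤ ρ := by
      rw [show P p - a • P p + b • (0:V) + δ • P u = (1 - a) • P p + δ • P u by module]
      refine (norm_add_le _ _).trans ?_
      rw [norm_smul, norm_smul, Real.norm_of_nonneg (by linarith), Real.norm_of_nonneg hδ.le]
      nlinarith [S.nP u]
    have n2 := pow_le_pow_left₀ (norm_nonneg _) n 2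
    have := (abs_le.1 ((S.nh u).trans hu)).1
    nlinarith
  by_cases c : δ ^ 2 ≤ h p
  · set r := Real.sqrt (h p) with hr
    have r2 : r ^ 2 = h p := Real.sq_sqrt (by nlinarith)
    have r1 : δ ≤ r := Real.le_sqrt_of_sq_le c
    have r0 : 0 < r := by linarith
    have r3 : ‖P p‖ ≤ r := Real.le_sqrt_of_sq_le hp'.le
    have a1 : δ / r ≤ 1 := (div_le_one r0).2 r1
    have a2 : δ / r * r = δ := by field_simp
    have a0 : 0 ≤ δ / r := by positivity
    refine ⟨p - (δ / r) • P p + (2 * δ) • e, ?_, gen _ _ r a1 (by nlinarith) (by linarith)⟩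
    rw [show p - (δ / r) • P p + (2 * δ) • e - p = (2 * δ) • e - (δ / r) • P p by abel]
    refine (norm_sub_le _ _).trans ?_
    rw [norm_smul, norm_smul, Real.norm_of_nonneg a0, Real.norm_of_nonneg (by linarith), S.ne]
    nlinarith
  · have d1 : δ ≤ 1 := hc.resolve_right c
    have r3 : ‖P p‖ ≤ δ := by
      by_contra k
      push Not at k c
      nlinarith
    refine ⟨p - (0:ℝ) • P p + (5 * δ) • e, ?_, gen _ _ (2 * δ) zero_le_one (by linarith)
      (by nlinarith [sq_nonneg ‖P p‖])⟩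
    rw [show p - (0:ℝ) • P p + (5 * δ) • e - p = (5 * δ) • e by module, norm_smul,
      Real.norm_of_nonneg (by linarith), S.ne, mul_one]

theorem par_main (S : Split P h e) {f : V → ℝ} (F : V → V →L[ℝ] ℝ)
    (hF : ∀ p ∈ Par P h, ∀ z ∈ Par P h, |f z - f p - F p (z - p)| ≤ ‖z - p‖ * om ‖z - p‖)
    {p q : V} (hp : p ∈ Par P h) (hq : q ∈ Par P h) : ‖F p - F q‖ ≤ 4000 * om ‖p - q‖ := by
  have loc : ∀ p ∈ Par P h, ∀ q ∈ Par P h, ∀ δ : ℝ, 0 < δ → (δ ≤ 1 ∨ δ ^ 2 ≤ h p) →
      ‖p - q‖ ≤ δ → ‖F p - F q‖ ≤ 196 * om δ := by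
    intro p hp q hq δ hδ hc hpq
    obtain ⟨z, z1, z2⟩ := par_ball S hp hδ hc
    have := local_est om_mono om_nn hδ (hF p hp) (hF q hq) z2 (R := 7 * δ) (by linarith)
      (by linarith [norm_sub_le_norm_sub_add_norm_sub z p q])
    refine this.trans ?_
    rw [div_le_iff₀ hδ]
    nlinarith [om_mul 7 δ (by norm_num) hδ.le]
  rcases eq_or_lt_of_le (norm_nonneg (p - q)) with t0 | t0
  · rw [sub_eq_zero.1 (norm_eq_zero.1 t0.symm)]; simp [om]
  have w := om_nn _ t0.le
  by_cases t1 : ‖p - q‖ ≤ 1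
  · exact (loc p hp q hq _ t0 (Or.inl t1) le_rfl).trans (by linarith)
  push Not at t1
  obtain ⟨s, s1, s4⟩ : ∃ s : ℝ, 1 ≤ s ∧ s ^ 4 = ‖p - q‖ := by
    refine ⟨Real.sqrt (Real.sqrt ‖p - q‖), Real.one_le_sqrt.2 (Real.one_le_sqrt.2 t1.le), ?_⟩
    rw [show 4 = 2 * 2 by rfl, pow_mul, Real.sq_sqrt (Real.sqrt_nonneg _), Real.sq_sqrt t0.le]
  have s0 : 0 < s := by linarith
  have o1 : om 1 ≤ 1 / 2 := by
    have := lg (t := 1) zero_le_one
    unfold om; exact one_div_le_one_div_of_le two_pos (by linarith)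
  have o1' := om_nn 1 zero_le_one
  obtain ⟨f1, f2⟩ := om_four s s1
  rw [s4] at f1 f2
  have up : ∀ p ∈ Par P h, ‖F p - F (p + s ^ 2 • e)‖ ≤ 196 * 6 * om ‖p - p + (s ^ 4) • e‖ := by
    intro p hp
    have sg := par_convex.segment_subset hp (par_up S hp (sq_nonneg s))
    have := chain F p (p + s ^ 2 • e) one_pos (B := 196 * om 1) (by positivity)
      fun x hx y hy hxy => loc x (sg hx) y (sg hy) 1 one_pos (Or.inl le_rfl) hxy
    rw [sub_add_cancel_left, norm_neg, norm_smul, S.ne, Real.norm_of_nonneg (sq_nonneg s)] at this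
    rw [sub_self, zero_add, norm_smul, S.ne, Real.norm_of_nonneg (by positivity), mul_one, s4]
    refine this.trans ?_
    have : 1 ≤ s ^ 2 := by nlinarith
    nlinarith
  have u1 := up p hp
  have u2 := up q hq
  rw [sub_self, zero_add, norm_smul, S.ne, Real.norm_of_nonneg (by positivity), mul_one, s4] at u1 u2
  have sg := par_convex.segment_subset (par_up S hp (sq_nonneg s)) (par_up S hq (sq_nonneg s))
  have ht : ∀ x ∈ segment ℝ (p + s ^ 2 • e) (q + s ^ 2 • e), s ^ 2 ≤ h x := by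
    rintro x ⟨a, b, ha, hb, hab, rfl⟩
    have p1 : ‖P p‖ ^ 2 < h p := hp
    have q1 : ‖P q‖ ^ 2 < h q := hq
    simp only [map_add, map_smul, smul_eq_mul, S.he]
    have : b = 1 - a := by linarith
    subst this
    nlinarith [sq_nonneg ‖P p‖, sq_nonneg ‖P q‖, mul_nonneg ha (sq_nonneg ‖P p‖),
      mul_nonneg hb (sq_nonneg ‖P q‖), mul_le_mul_of_nonneg_left p1.le ha,
      mul_le_mul_of_nonneg_left q1.le hb]
  have os := om_nn s s0.le
  have m := chain F _ _ s0 (B := 196 * om s) (by positivity)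
    fun x hx y hy hxy => loc x (sg hx) y (sg hy) s s0 (Or.inr (ht x hx)) hxy
  rw [add_sub_add_right_eq_sub, ← s4, show s ^ 4 / s = s ^ 3 by field_simp] at m
  have s3 : 1 ≤ s ^ 3 := one_le_pow₀ s1
  have m2 : (s ^ 3 + 1) * (196 * om s) ≤ 196 * 8 * om ‖p - q‖ := by nlinarith
  have t1 := norm_sub_le_norm_sub_add_norm_sub (F p) (F (p + s ^ 2 • e)) (F q)
  have t2 := norm_sub_le_norm_sub_add_norm_sub (F (p + s ^ 2 • e)) (F (q + s ^ 2 • e)) (F q)
  rw [norm_sub_rev (F (q + s ^ 2 • e))] at t2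
  linarith

end Pool.Agent.H.MP_d2274e_an
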