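import Pool.Agent.H.MP_d2274e_an.B

set_option autoImplicit false

namespace Pool.Agent.H.MP_d2274e_an

open Filter Topology Set

variable {V : Type*} [NormedAddCommGroup V] [InnerProductSpace ℝ V]

noncomputable def hh (e : V) : V →ₗ[ℝ] ℝ := innerₗ V e
noncomputable def PP (e : V) : V →ₗ[ℝ] V := LinearMap.id - (hh e).smulRight e

theorem hh_apply (e x : V) : hh e x = inner ℝ e x := rfl
theorem PP_apply (e x : V) : PP e x = x - inner ℝ e x • e := rfl

theorem split {e : V} (he : ‖e‖ = 1) : Split (PP e) (hh e) e := by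
  have ee : inner ℝ e e = (1:ℝ) := by rw [real_inner_self_eq_norm_sq, he]; norm_num
  have hP : ∀ x, inner ℝ e (x - inner ℝ e x • e) = (0:ℝ) := fun x => by
    rw [inner_sub_right, real_inner_smul_right, ee]; ring
  refine ⟨by rw [PP_apply, ee]; simp, ee, fun x => by rw [PP_apply, PP_apply, hP]; simp, hP,
    fun x => ?_, fun x => ?_, he⟩
  · rw [PP_apply]
    refine (pow_le_pow_iff_left₀ (norm_nonneg _) (norm_nonneg _) two_ne_zero).1 ?_
    rw [norm_sub_sq_real, real_inner_smul_right, norm_smul, he, real_inner_comm e x,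
      Real.norm_eq_abs, mul_one, sq_abs]
    nlinarith [sq_nonneg (inner ℝ e x)]
  · have := abs_real_inner_le_norm e x
    rwa [he, one_mul] at this

theorem par_open [FiniteDimensional ℝ V] (P : V →ₗ[ℝ] V) (h : V →ₗ[ℝ] ℝ) : IsOpen (Par P h) :=
  isOpen_lt ((P.continuous_of_finiteDimensional.norm).pow 2) h.continuous_of_finiteDimensional

theorem par_unb {P : V →ₗ[ℝ] V} {h : V →ₗ[ℝ] ℝ} {e : V} (S : Split P h e) :
    ¬ Bornology.IsBounded (Par P h) := by
  intro b
  obtain ⟨R, hR⟩ := b.exists_norm_le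
  have m : (|R| + 1) • e ∈ Par P h := by
    simp only [Par, mem_setOf_eq, map_smul, S.Pe, S.he, smul_zero, norm_zero, smul_eq_mul]
    have := abs_nonneg R; norm_num; linarith
  have := hR _ m
  rw [norm_smul, S.ne, Real.norm_of_nonneg (by positivity)] at this
  linarith [le_abs_self R]

theorem par_free {P : V →ₗ[ℝ] V} {h : V →ₗ[ℝ] ℝ} {e' : V} (h1 : P e' ≠ 0) (a : V) (C : Set V)
    (cone : ∀ x ∈ C, ∀ l : ℝ, 0 < l → l • x ∈ C) (int : (interior C).Nonempty) :
    ¬ ∀ x ∈ C, a + x ∈ Par P h := by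
  intro H
  have z : ∀ x ∈ C, P x = 0 := by
    intro x hx
    by_contra k
    have k0 : 0 < ‖P x‖ := norm_pos_iff.2 k
    set A := ‖P a‖
    set B := ‖P x‖
    have A0 : 0 ≤ A := norm_nonneg _
    obtain ⟨l, l1, l2⟩ : ∃ l : ℝ, 1 ≤ l ∧ 2 * A * B + |h a| + |h x| ≤ l * B ^ 2 :=
      ⟨max 1 ((2 * A * B + |h a| + |h x|) / B ^ 2), le_max_left _ _,
        (div_le_iff₀ (by positivity)).1 (le_max_right _ _)⟩
    have m := H _ (cone x hx l (by linarith))
    simp only [Par, mem_setOf_eq, map_add, map_smul, smul_eq_mul] at m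
    have n : l * B - A ≤ ‖P a + l • P x‖ := by
      have := norm_sub_norm_le (l • P x) (-P a)
      rw [norm_smul, Real.norm_of_nonneg (by linarith), norm_neg, sub_neg_eq_add, add_comm] at this
      exact this
    have lb : A ≤ l * B := by
      have := abs_nonneg (h a); have := abs_nonneg (h x)
      by_contra q
      push Not at q
      nlinarith [mul_lt_mul_of_pos_right q k0]
    have n2 := pow_le_pow_left₀ (by linarith) n 2
    have a1 := le_abs_self (h a)
    have a2 := le_abs_self (h x)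
    have a3 := abs_nonneg (h a)
    nlinarith [mul_le_mul_of_nonneg_left l2 (by linarith : 0 ≤ l),
      mul_le_mul_of_nonneg_left a2 (by linarith : 0 ≤ l), sq_nonneg A]
  obtain ⟨v, hv⟩ := int
  have c : Continuous fun s : ℝ => v + s • e' := by fun_prop
  have ev : ∀ᶠ s in 𝓝 (0:ℝ), v + s • e' ∈ interior C :=
    c.continuousAt.eventually (isOpen_interior.mem_nhds (by simpa using hv))
  obtain ⟨s, hs, s0⟩ := ((ev.filter_mono nhdsWithin_le_nhds).and
    (self_mem_nhdsWithin (a := (0:ℝ)) (s := Ioi 0))).exists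
  have := z _ (interior_subset hs)
  rw [map_add, z v (interior_subset hv), zero_add, map_smul] at this
  exact h1 ((smul_eq_zero.1 this).resolve_left (ne_of_gt s0))

theorem neg_main [FiniteDimensional ℝ V] {e : V} (he : ‖e‖ = 1) {f : V → ℝ}
    (H : ∀ x ∈ Par (PP e) (hh e), ∀ y ∈ Par (PP e) (hh e), ∀ l ∈ Icc (0:ℝ) 1,
      |f (l • x + (1 - l) • y) - l * f x - (1 - l) * f y| ≤ l * (1 - l) * ‖x - y‖ * om ‖x - y‖) :
    (∀ x ∈ Par (PP e) (hh e), DifferentiableAt ℝ f x) ∧ ∀ x ∈ Par (PP e) (hh e),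
      ∀ y ∈ Par (PP e) (hh e), ‖fderiv ℝ f x - fderiv ℝ f y‖ ≤ 4000 * om ‖x - y‖ := by
  have D := fun p hp => exists_deriv (par_open (PP e) (hh e)) par_convex om_lim om_nn H (p := p) hp
  refine ⟨fun x hx => (D x hx).choose_spec.1.differentiableAt, fun x hx y hy =>
    par_main (split he) (f := f) (fderiv ℝ f) (fun p hp => ?_) hx hy⟩
  obtain ⟨L, h1, h2⟩ := D p hp
  rw [h1.fderiv]; exact h2

end Pool.Agent.H.MP_d2274e_an
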