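import Mathlib

set_option autoImplicit false

namespace Pool.Agent.H.MP_d2274e_an

open Filter Topology Set

theorem core_real {R ε l t A B Z u v : ℝ} (hR : 0 < R) (e0 : 0 < ε) (e1 : ε ≤ 1) (l0 : 0 ≤ l)
    (l1 : l ≤ 1) (hA : R ≤ A) (hB : R ≤ B) (hZ : R ≤ Z) (ZM : Z ≤ l * A + (1 - l) * B)
    (m1 : l * A + (1 - l) * B - Z ≤ 2 * (l * (1 - l)) * t)
    (m2 : (l * A + (1 - l) * B - Z) * R ≤ l * (1 - l) * t ^ 2)
    (AB : |A - B| ≤ t) (uv : |u - v| ≤ t) (hu : |u| ≤ ε * A) (hv : |v| ≤ ε * B)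
    (hw : |l * u + (1 - l) * v| ≤ ε * Z) :
    |(l * u + (1 - l) * v) * (1 - R / Z) - l * (u * (1 - R / A)) - (1 - l) * (v * (1 - R / B))|
      ≤ 5 * (l * (1 - l)) * t * min (t / R) ε := by
  set M := l * A + (1 - l) * B with hM
  set w := l * u + (1 - l) * v with hw'
  set k := l * (1 - l) with hk
  have A0 : 0 < A := by linarith
  have B0 : 0 < B := by linarith
  have Z0 : 0 < Z := by linarith
  have M0 : 0 < M := by linarith
  have k0 : 0 ≤ k := mul_nonneg l0 (by linarith)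
  have t0 : 0 ≤ t := (abs_nonneg _).trans AB
  have e : w * (1 - R / Z) - l * (u * (1 - R / A)) - (1 - l) * (v * (1 - R / B))
      = -((w / Z) * (R / M) * (M - Z)) + (w / M) * k * ((A - B) * (R * (A - B) / (A * B)))
        - k * ((u - v) * R / (A * B) * (A - B)) := by
    have : M ≠ 0 := M0.ne'
    field_simp
    simp only [hM, hw', hk]
    ring
  clear_value M w k
  rw [e]
  clear e hM hw' hk
  have a1 : |w / Z| ≤ ε := by rw [abs_div, abs_of_pos Z0, div_le_iff₀ Z0]; exact hw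
  have a2 : |w / M| ≤ ε := by
    rw [abs_div, abs_of_pos M0, div_le_iff₀ M0]; nlinarith
  have a3 : |R / M| ≤ 1 := by
    rw [abs_of_pos (by positivity), div_le_one M0]; linarith
  have AB0 : 0 < A * B := by positivity
  have RR : R * R ≤ A * B := mul_le_mul hA hB hR.le A0.le
  have a4 : |R * (A - B) / (A * B)| ≤ min (t / R) 1 := by
    rw [abs_div, abs_of_pos AB0, abs_mul, abs_of_pos hR]
    refine le_min ?_ ?_
    · rw [div_le_div_iff₀ AB0 hR]
      nlinarith [mul_le_mul AB RR (by positivity) t0, abs_nonneg (A - B)]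
    · rw [div_le_one AB0]
      have b1 : R * A ≤ B * A := mul_le_mul_of_nonneg_right hB A0.le
      have b2 : R * B ≤ A * B := mul_le_mul_of_nonneg_right hA B0.le
      have b3 := mul_pos hR A0
      have b4 := mul_pos hR B0
      rcases abs_cases (A - B) with h | h <;> rw [h.1] <;> linarith
  have a5 : |(u - v) * R / (A * B)| ≤ 2 * min (t / R) ε := by
    rw [abs_div, abs_of_pos AB0, abs_mul, abs_of_pos hR, mul_min_of_nonneg _ _ two_pos.le]
    refine le_min ?_ ?_
    · rw [← mul_div_assoc, div_le_div_iff₀ AB0 hR]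
      nlinarith [mul_le_mul uv RR (by positivity) t0, abs_nonneg (u - v), mul_nonneg t0 AB0.le]
    · rw [div_le_iff₀ AB0]
      have := abs_sub u v
      have b1 : ε * A * R ≤ ε * A * B := mul_le_mul_of_nonneg_left hB (by positivity)
      have b2 : ε * B * R ≤ ε * B * A := mul_le_mul_of_nonneg_left hA (by positivity)
      nlinarith [mul_le_mul_of_nonneg_right (this.trans (add_le_add hu hv)) hR.le]
  set m := min (t / R) ε with hm
  have m0 : 0 ≤ m := le_min (by positivity) e0.le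
  have em : ε * min (t / R) 1 ≤ m := by
    have q : 0 ≤ min (t / R) 1 := le_min (by positivity) zero_le_one
    refine le_min ?_ ?_
    · nlinarith [min_le_left (t / R) 1]
    · nlinarith [min_le_right (t / R) 1]
  have T1 : |(w / Z) * (R / M) * (M - Z)| ≤ 2 * k * t * m := by
    rw [abs_mul, abs_mul, abs_of_nonneg (sub_nonneg.2 ZM)]
    have b : |w / Z| * |R / M| ≤ ε := by nlinarith [abs_nonneg (w / Z), abs_nonneg (R / M)]
    refine (mul_le_mul_of_nonneg_right b (sub_nonneg.2 ZM)).trans ?_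
    rw [hm, mul_min_of_nonneg _ _ (by positivity)]
    refine le_min ?_ (by have := mul_le_mul_of_nonneg_left m1 e0.le; linarith)
    rw [← mul_div_assoc, le_div_iff₀ hR]
    have q : 0 ≤ (M - Z) * R := mul_nonneg (sub_nonneg.2 ZM) hR.le
    have q1 := mul_le_mul_of_nonneg_right e1 q
    have q2 := mul_nonneg k0 (sq_nonneg t)
    linarith
  have T2 : |(w / M) * k * ((A - B) * (R * (A - B) / (A * B)))| ≤ k * t * m := by
    rw [abs_mul, abs_mul, abs_mul, abs_of_nonneg k0]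
    calc _ ≤ ε * k * (t * min (t / R) 1) := by gcongr
      _ = k * t * (ε * min (t / R) 1) := by ring
      _ ≤ _ := by gcongr
  have T3 : |k * ((u - v) * R / (A * B) * (A - B))| ≤ 2 * k * t * m := by
    rw [abs_mul, abs_mul, abs_of_nonneg k0]
    calc _ ≤ k * (2 * m * t) := by gcongr
      _ = _ := by ring
  rw [abs_le] at T1 T2 T3 ⊢
  constructor <;> linarith [T1.1, T1.2, T2.1, T2.2, T3.1, T3.2]

variable {V : Type*} [NormedAddCommGroup V] [InnerProductSpace ℝ V]

noncomputable def NN (R : ℝ) (x : V) : ℝ := ‖(WithLp.toLp 2 (R, x) : WithLp 2 (ℝ × V))‖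

theorem NN_sq (R : ℝ) (x : V) : NN R x ^ 2 = R ^ 2 + ‖x‖ ^ 2 := by
  unfold NN; rw [WithLp.prod_norm_sq_eq_of_L2]; simp

theorem NN_nn (R : ℝ) (x : V) : 0 ≤ NN R x := norm_nonneg _

theorem NN_ge (R : ℝ) (x : V) : R ≤ NN R x :=
  (abs_le_of_sq_le_sq' (by nlinarith [NN_sq R x, sq_nonneg ‖x‖]) (NN_nn R x)).2

theorem NN_ge' (R : ℝ) (x : V) : ‖x‖ ≤ NN R x :=
  (pow_le_pow_iff_left₀ (norm_nonneg _) (NN_nn R x) two_ne_zero).1
    (by nlinarith [NN_sq R x, sq_nonneg R])

theorem NN_lip (R : ℝ) (x y : V) : |NN R x - NN R y| ≤ ‖x - y‖ := by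
  refine (abs_norm_sub_norm_le _ _).trans (le_of_eq ?_)
  refine (pow_left_inj₀ (norm_nonneg _) (norm_nonneg _) two_ne_zero).1 ?_
  rw [WithLp.prod_norm_sq_eq_of_L2]; simp

theorem NN_cont (R : ℝ) : Continuous (NN R : V → ℝ) :=
  (LipschitzWith.of_dist_le_mul (K := 1) fun x y => by
    rw [Real.dist_eq, dist_eq_norm]; simpa using NN_lip R x y).continuous

theorem NN_cvx (R : ℝ) (x y : V) {l : ℝ} (l0 : 0 ≤ l) (l1 : l ≤ 1) :
    NN R (l • x + (1 - l) • y) ≤ l * NN R x + (1 - l) * NN R y := by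
  have e : (WithLp.toLp 2 (R, l • x + (1 - l) • y) : WithLp 2 (ℝ × V))
      = l • WithLp.toLp 2 (R, x) + (1 - l) • WithLp.toLp 2 (R, y) := by
    rw [← WithLp.toLp_smul, ← WithLp.toLp_smul, ← WithLp.toLp_add]
    congr 1
    ext <;> simp; ring
  unfold NN
  rw [e]
  refine (norm_add_le _ _).trans ?_
  rw [norm_smul, norm_smul, Real.norm_of_nonneg l0, Real.norm_of_nonneg (by linarith)]

theorem core (a : V) (ha : ‖a‖ = 1) {R ε l : ℝ} (hR : 0 < R) (e0 : 0 < ε) (e1 : ε ≤ 1)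
    (l0 : 0 ≤ l) (l1 : l ≤ 1) (x y : V) (hx : |inner ℝ a x| ≤ ε * NN R x)
    (hy : |inner ℝ a y| ≤ ε * NN R y)
    (hz : |inner ℝ a (l • x + (1 - l) • y)| ≤ ε * NN R (l • x + (1 - l) • y)) :
    |inner ℝ a (l • x + (1 - l) • y) * (1 - R / NN R (l • x + (1 - l) • y))
      - l * (inner ℝ a x * (1 - R / NN R x)) - (1 - l) * (inner ℝ a y * (1 - R / NN R y))|
      ≤ 5 * (l * (1 - l)) * ‖x - y‖ * min (‖x - y‖ / R) ε := by
  have ei : inner ℝ a (l • x + (1 - l) • y) = l * inner ℝ a x + (1 - l) * inner ℝ a y := by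
    rw [inner_add_right, real_inner_smul_right, real_inner_smul_right]
  rw [ei] at hz ⊢
  have cv := NN_cvx R x y l0 l1
  have l2 : 0 ≤ 1 - l := by linarith
  refine core_real hR e0 e1 l0 l1 (NN_ge R x) (NN_ge R y) (NN_ge R _) cv ?_ ?_ (NN_lip R x y) ?_
    hx hy hz
  · have a1 := (le_abs_self _).trans (NN_lip R x (l • x + (1 - l) • y))
    have a2 := (le_abs_self _).trans (NN_lip R y (l • x + (1 - l) • y))
    rw [show x - (l • x + (1 - l) • y) = (1 - l) • (x - y) by module, norm_smul,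
      Real.norm_of_nonneg l2] at a1
    rw [show y - (l • x + (1 - l) • y) = (-l) • (x - y) by module, norm_smul, norm_neg,
      Real.norm_of_nonneg l0] at a2
    nlinarith [mul_le_mul_of_nonneg_left a1 l0, mul_le_mul_of_nonneg_left a2 l2]
  · have s : ‖l • x + (1 - l) • y‖ ^ 2 = l * ‖x‖ ^ 2 + (1 - l) * ‖y‖ ^ 2
        - l * (1 - l) * ‖x - y‖ ^ 2 := by
      rw [norm_add_sq_real, norm_sub_sq_real, norm_smul, norm_smul, real_inner_smul_left,
        real_inner_smul_right, Real.norm_of_nonneg l0, Real.norm_of_nonneg l2]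
      ring
    have s1 := NN_sq R x
    have s2 := NN_sq R y
    have s3 := NN_sq R (l • x + (1 - l) • y)
    have g := NN_ge R (l • x + (1 - l) • y)
    set A := NN R x
    set B := NN R y
    set Z := NN R (l • x + (1 - l) • y)
    have q : (l * A + (1 - l) * B) ^ 2 - Z ^ 2 ≤ l * (1 - l) * ‖x - y‖ ^ 2 := by
      have : (l * A + (1 - l) * B) ^ 2 = l * A ^ 2 + (1 - l) * B ^ 2 - l * (1 - l) * (A - B) ^ 2 := by
        ring
      rw [this, s1, s2, s3, s]
      nlinarith [mul_nonneg (mul_nonneg l0 l2) (sq_nonneg (A - B))]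
    nlinarith [mul_nonneg (sub_nonneg.2 cv) (by linarith : 0 ≤ l * A + (1 - l) * B + Z - R)]
  · rw [← inner_sub_right]
    have := abs_real_inner_le_norm a (x - y)
    rwa [ha, one_mul] at this

theorem recess [FiniteDimensional ℝ V] {G : Set V} (hG : IsOpen G) (hc : Convex ℝ G) {p : V}
    (hp : p ∈ G) (K : Set V) (hK : IsClosed K)
    (h : ∀ R : ℝ, ∃ x ∈ G, R < ‖x - p‖ ∧ ‖x - p‖⁻¹ • (x - p) ∈ K) :
    ∃ u ∈ K, ‖u‖ = 1 ∧ ∀ s : ℝ, 0 < s → p + s • u ∈ G := by
  choose x hx h1 h2 using fun k : ℕ => h k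
  have pos : ∀ k, 0 < ‖x k - p‖ := fun k => lt_of_le_of_lt (Nat.cast_nonneg k) (h1 k)
  have mem : ∀ k, ‖x k - p‖⁻¹ • (x k - p) ∈ Metric.sphere (0:V) 1 ∩ K := fun k =>
    ⟨by rw [mem_sphere_zero_iff_norm, norm_smul, norm_inv, norm_norm,
      inv_mul_cancel₀ (pos k).ne'], h2 k⟩
  obtain ⟨u, hu, φ, hφ, lim⟩ := ((isCompact_sphere (0:V) 1).inter_right hK).tendsto_subseq mem
  refine ⟨u, hu.2, mem_sphere_zero_iff_norm.1 hu.1, fun s hs => ?_⟩
  have cl : p + (2 * s) • u ∈ closure G := by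
    refine mem_closure_of_tendsto ((lim.const_smul (2 * s)).const_add p) ?_
    filter_upwards [eventually_ge_atTop ⌈2 * s⌉₊] with k hk
    have b : 2 * s ≤ ‖x (φ k) - p‖ := by
      have : (k:ℝ) ≤ φ k := by exact_mod_cast hφ.id_le k
      have := Nat.ceil_le.1 hk
      linarith [h1 (φ k)]
    have q := pos (φ k)
    have := hc.add_smul_sub_mem hp (hx (φ k)) (t := 2 * s * ‖x (φ k) - p‖⁻¹)
      ⟨by positivity, by rw [← div_eq_mul_inv, div_le_one q]; exact b⟩
    simpa only [Function.comp, smul_smul] using this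
  have := hc.combo_interior_closure_mem_interior (hG.interior_eq.symm ▸ hp) cl
    (a := 1/2) (b := 1/2) (by norm_num) (by norm_num) (by norm_num)
  rw [hG.interior_eq] at this
  rwa [show (1/2:ℝ) • p + (1/2:ℝ) • (p + (2 * s) • u) = p + s • u by module] at this

theorem geom [FiniteDimensional ℝ V] {G : Set V} (hG : IsOpen G) (hc : Convex ℝ G)
    (unb : ¬ Bornology.IsBounded G)
    (free : ∀ (a : V) (C : Set V), Convex ℝ C → (∀ x ∈ C, ∀ l : ℝ, 0 < l → l • x ∈ C) →
      (interior C).Nonempty → ¬ ∀ x ∈ C, a + x ∈ G) :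
    ∃ p a e : V, p ∈ G ∧ ‖a‖ = 1 ∧ ‖e‖ = 1 ∧ inner ℝ a e = (0:ℝ) ∧
      (∀ s : ℝ, 0 < s → p + s • e ∈ G) ∧
      ∀ ε : ℝ, 0 < ε → ∃ R₀ : ℝ, ∀ R, R₀ ≤ R → ∀ x ∈ G,
        |inner ℝ a (x - p)| ≤ ε * NN R (x - p) := by
  obtain ⟨p, hp⟩ : G.Nonempty := by
    by_contra k
    rw [not_nonempty_iff_eq_empty] at k
    exact unb (k ▸ Bornology.isBounded_empty)
  let C : Set V := {u | ∀ s : ℝ, 0 < s → p + s • u ∈ G}
  have Cc : Convex ℝ C := by
    intro u hu v hv a b ha hb hab s hs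
    have := hc (hu s hs) (hv s hs) ha hb hab
    have e : b = 1 - a := by linarith
    subst e
    rwa [show a • (p + s • u) + (1 - a) • (p + s • v) = p + s • (a • u + (1 - a) • v) by module]
      at this
  have C0 : (0:V) ∈ C := fun s _ => by simpa using hp
  have ni : ¬ (interior C).Nonempty := fun k =>
    free p C Cc (fun u hu l hl s hs => by rw [smul_smul]; exact hu _ (mul_pos hs hl)) k
      fun u hu => by simpa using hu 1 one_pos
  have sp : Submodule.span ℝ C ≠ ⊤ := by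
    intro k
    apply ni
    rw [Cc.interior_nonempty_iff_affineSpan_eq_top,
      AffineSubspace.affineSpan_eq_top_iff_vectorSpan_eq_top_of_nonempty ℝ V V ⟨0, C0⟩,
      vectorSpan_eq_span_vsub_set_right ℝ C0]
    simpa using k
  obtain ⟨b, hb, b0⟩ := (Submodule.ne_bot_iff _).1
    (mt (Submodule.orthogonal_eq_bot_iff (K := Submodule.span ℝ C)).1 sp)
  have bp : 0 < ‖b‖ := norm_pos_iff.2 b0
  set a := ‖b‖⁻¹ • b with ha
  have a1 : ‖a‖ = 1 := by rw [ha, norm_smul, norm_inv, norm_norm, inv_mul_cancel₀ bp.ne']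
  have ort : ∀ u ∈ C, inner ℝ a u = (0:ℝ) := fun u hu => by
    rw [ha, real_inner_smul_left, real_inner_comm,
      (Submodule.mem_orthogonal _ _).1 hb u (Submodule.subset_span hu), mul_zero]
  obtain ⟨e, -, e1, e2⟩ := recess hG hc hp univ isClosed_univ fun R => by
    by_contra k
    push Not at k
    refine unb ((Metric.isBounded_closedBall (x := p) (r := R)).subset fun x hx => ?_)
    rw [mem_closedBall_iff_norm]
    by_contra q
    exact k x hx (not_le.1 q) trivial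
  refine ⟨p, a, e, hp, a1, e1, ort e e2, e2, fun ε hε => ?_⟩
  have : ∃ R : ℝ, ∀ x ∈ G, R < ‖x - p‖ → |inner ℝ a (x - p)| ≤ ε * ‖x - p‖ := by
    by_contra k
    push Not at k
    obtain ⟨u, u1, -, u3⟩ := recess hG hc hp {u | ε ≤ |inner ℝ a u|}
      (isClosed_le continuous_const (by fun_prop)) fun R => by
        obtain ⟨x, hx, x1, x2⟩ := k |R|
        have q : 0 < ‖x - p‖ := lt_of_le_of_lt (abs_nonneg R) x1
        refine ⟨x, hx, lt_of_le_of_lt (le_abs_self R) x1, ?_⟩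
        show ε ≤ _
        rw [real_inner_smul_right, abs_mul, abs_of_pos (inv_pos.2 q), le_inv_mul_iff₀ q]
        linarith
    have := ort u u3
    simp only [mem_setOf_eq, this, abs_zero] at u1
    linarith
  obtain ⟨R₁, h1⟩ := this
  refine ⟨R₁ / ε, fun R hR x hx => ?_⟩
  by_cases c : R₁ < ‖x - p‖
  · exact (h1 x hx c).trans (mul_le_mul_of_nonneg_left (NN_ge' R _) hε.le)
  · have := abs_real_inner_le_norm a (x - p)
    rw [a1, one_mul] at this
    rw [div_le_iff₀ hε] at hR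
    nlinarith [NN_ge R (x - p)]

end Pool.Agent.H.MP_d2274e_an
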