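import Pool.Agent.H.MP_d2274e_an.D

set_option autoImplicit false

namespace Pool.Agent.H.MP_d2274e_an

open Filter Topology Set

variable {V : Type*} [NormedAddCommGroup V] [InnerProductSpace ℝ V]

theorem min_le_rpow {x ε α : ℝ} (hx : 0 ≤ x) (hε : 0 < ε) (a0 : 0 < α) (a1 : α < 1) :
    min x ε ≤ x ^ α * ε ^ (1 - α) := by
  have m0 : 0 ≤ min x ε := le_min hx hε.le
  have e : min x ε = min x ε ^ α * min x ε ^ (1 - α) := by
    rw [← Real.rpow_add' m0 (by norm_num)]; simp
  rw [e]
  exact mul_le_mul (Real.rpow_le_rpow m0 (min_le_left _ _) a0.le)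
    (Real.rpow_le_rpow m0 (min_le_right _ _) (by linarith)) (by positivity) (by positivity)

theorem pos_main [FiniteDimensional ℝ V] {G : Set V} (hG : IsOpen G) (hc : Convex ℝ G)
    (unb : ¬ Bornology.IsBounded G)
    (free : ∀ (a : V) (C : Set V), Convex ℝ C → (∀ x ∈ C, ∀ l : ℝ, 0 < l → l • x ∈ C) →
      (interior C).Nonempty → ¬ ∀ x ∈ C, a + x ∈ G) {α : ℝ} (a0 : 0 < α) (a1 : α < 1) :
    ∃ f : V → ℝ, Continuous f ∧ (∀ x ∈ G, ∀ y ∈ G, ∀ l ∈ Icc (0:ℝ) 1,
      |f (l • x + (1 - l) • y) - l * f x - (1 - l) * f y|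
        ≤ l * (1 - l) * ‖x - y‖ * ‖x - y‖ ^ α) ∧
      ∀ K : ℝ, ¬ ((∀ x ∈ G, DifferentiableAt ℝ f x) ∧ ∀ x ∈ G, ∀ y ∈ G,
        ‖fderiv ℝ f x - fderiv ℝ f y‖ ≤ K * ‖x - y‖ ^ α) := by
  obtain ⟨p, a, e, hp, ha, he, ae, ray, sub⟩ := geom hG hc unb free
  let ε : ℕ → ℝ := fun k => ((1 / 4 : ℝ) ^ k) ^ (1 / (1 - α))
  have b0 : 0 < 1 - α := by linarith
  have e0 : ∀ k, 0 < ε k := fun k => by positivity
  have e1 : ∀ k, ε k ≤ 1 := fun k =>
    Real.rpow_le_one (by positivity) (pow_le_one₀ (by norm_num) (by norm_num)) (by positivity)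
  have e2 : ∀ k, ε k ^ (1 - α) = (1 / 4 : ℝ) ^ k := fun k => by
    simp only [ε]
    rw [← Real.rpow_mul (by positivity), one_div_mul_cancel b0.ne', Real.rpow_one]
  choose R₀ hR₀ using fun k => sub (ε k) (e0 k)
  let R : ℕ → ℝ := fun k => max (R₀ k) (4 ^ k)
  have R4 : ∀ k, (4:ℝ) ^ k ≤ R k := fun k => le_max_right _ _
  have R1 : ∀ k, 1 ≤ R k := fun k => (one_le_pow₀ (by norm_num)).trans (R4 k)
  have R0 : ∀ k, 0 < R k := fun k => lt_of_lt_of_le one_pos (R1 k)
  have sb : ∀ k, ∀ x ∈ G, |inner ℝ a (x - p)| ≤ ε k * NN (R k) (x - p) :=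
    fun k => hR₀ k _ (le_max_left _ _)
  let c : ℕ → ℝ := fun k => R k ^ α * 2 ^ k / 10
  have c0 : ∀ k, 0 < c k := fun k => by have := R0 k; positivity
  have N0 : ∀ k (x : V), 0 < NN (R k) x := fun k x => lt_of_lt_of_le (R0 k) (NN_ge _ _)
  let τ : ℕ → V → ℝ := fun k x => c k / (NN (R k) x * (NN (R k) x + R k))
  have τ0 : ∀ k x, 0 < τ k x := fun k x => by
    have := c0 k; have := N0 k x; have := R0 k; positivity
  have τb : ∀ k x, ‖τ k x‖ ≤ (1 / 2 : ℝ) ^ k := by
    intro k x
    rw [Real.norm_of_nonneg (τ0 k x).le]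
    have n := NN_ge (R k) x
    have r := R0 k
    have q : R k ^ α ≤ R k := by
      simpa using Real.rpow_le_rpow_of_exponent_le (R1 k) a1.le
    have q2 : (2:ℝ) ^ k = (1 / 2) ^ k * 4 ^ k := by rw [← mul_pow]; norm_num
    have q3 : R k * R k ≤ NN (R k) x * (NN (R k) x + R k) :=
      mul_le_mul n (by linarith) r.le (N0 k x).le
    simp only [τ, c]
    rw [div_le_iff₀ (by have := N0 k x; positivity), q2]
    have h2 : (0:ℝ) < (1 / 2) ^ k := by positivity
    have q4 : R k ^ α * 4 ^ k ≤ R k * R k := mul_le_mul q (R4 k) (by positivity) r.le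
    have q5 : 0 ≤ R k ^ α * 4 ^ k := by positivity
    nlinarith [mul_le_mul_of_nonneg_left (q4.trans q3) h2.le, mul_nonneg h2.le q5]
  have sm : ∀ x, Summable fun k => τ k x := fun x =>
    Summable.of_norm_bounded summable_geometric_two fun k => τb k x
  let g : V → ℝ := fun x => ‖x‖ ^ 2 * ∑' k, τ k x
  have gc : Continuous g := by
    refine (continuous_norm.pow 2).mul (continuous_tsum (fun k => ?_) summable_geometric_two τb)
    refine continuous_const.div ((NN_cont _).mul ((NN_cont _).add continuous_const)) fun x => ?_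
    have := N0 k x; have := R0 k; positivity
  have τe : ∀ k x, ‖x‖ ^ 2 * τ k x = c k * (1 - R k / NN (R k) x) := fun k x => by
    have := N0 k x
    have := R0 k
    have s : ‖x‖ ^ 2 = NN (R k) x ^ 2 - R k ^ 2 := by rw [NN_sq]; ring
    simp only [τ]
    rw [s]; field_simp; ring
  have hs : ∀ x, HasSum (fun k => c k * (inner ℝ a x * (1 - R k / NN (R k) x)))
      (inner ℝ a x * g x) := fun x => by
    have := ((sm x).hasSum.mul_left (‖x‖ ^ 2)).mul_left (inner ℝ a x)
    simp only [τe] at this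
    simpa only [mul_left_comm] using this
  refine ⟨fun x => inner ℝ a (x - p) * g (x - p), by fun_prop, fun x hx y hy l hl => ?_,
    fun K ⟨dif, hK⟩ => ?_⟩
  · have ez : l • x + (1 - l) • y - p = l • (x - p) + (1 - l) • (y - p) := by module
    have hz := sb
    have S := ((hs (l • (x - p) + (1 - l) • (y - p))).sub ((hs (x - p)).mul_left l)).sub
      ((hs (y - p)).mul_left (1 - l))
    simp only [ez]
    refine S.norm_le_of_bounded (hasSum_geometric_two' _) fun k => ?_
    have C := core a ha (R0 k) (e0 k) (e1 k) hl.1 hl.2 (x - p) (y - p) (sb k x hx) (sb k y hy)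
      (ez ▸ sb k _ (hc hx hy hl.1 (by linarith [hl.2]) (by ring)))
    rw [sub_sub_sub_cancel_right] at C
    have m := min_le_rpow (x := ‖x - y‖ / R k) (by have := R0 k; positivity) (e0 k) a0 a1
    rw [e2, Real.div_rpow (norm_nonneg _) (R0 k).le] at m
    have k0 : 0 ≤ l * (1 - l) := mul_nonneg hl.1 (by linarith [hl.2])
    have C2 := C.trans (mul_le_mul_of_nonneg_left m (by positivity))
    rw [mul_left_comm l, mul_left_comm (1 - l), ← mul_sub, ← mul_sub, Real.norm_eq_abs, abs_mul,
      abs_of_pos (c0 k)]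
    refine (mul_le_mul_of_nonneg_left C2 (c0 k).le).trans (le_of_eq ?_)
    have : 0 < R k ^ α := by have := R0 k; positivity
    have q : (1 / 4 : ℝ) ^ k = 1 / (2 ^ k * 2 ^ k) := by
      rw [← mul_pow, one_div_pow]; norm_num
    simp only [c]
    rw [q]; field_simp; ring
  · have der : ∀ x ∈ G, inner ℝ a (x - p) = (0:ℝ) →
        fderiv ℝ (fun x => inner ℝ a (x - p) * g (x - p)) x a = g (x - p) := by
      intro x hx h0
      have l1 : HasDerivAt (fun s : ℝ => x + s • a) a 0 := by
        simpa using ((hasDerivAt_id (0:ℝ)).smul_const a).const_add x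
      have d1 := (dif x hx).hasFDerivAt.comp_hasDerivAt_of_eq (0:ℝ) l1 (by simp)
      refine d1.unique (hasDerivAt_iff_tendsto_slope_zero.2 ?_)
      have cc : Continuous fun s : ℝ => g (x + s • a - p) := by fun_prop
      have t := (cc.tendsto 0).mono_left (nhdsWithin_le_nhds (s := {0}ᶜ))
      rw [zero_smul, add_zero] at t
      refine t.congr' ?_
      filter_upwards [self_mem_nhdsWithin] with s hs
      have s0 : s ≠ 0 := hs
      have i : inner ℝ a (x + s • a - p) = s := by
        rw [show x + s • a - p = (x - p) + s • a by abel, inner_add_right, h0,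
          real_inner_smul_right, real_inner_self_eq_norm_sq, ha]; ring
      simp only [Function.comp, zero_add, zero_smul, add_zero, i, h0, smul_eq_mul]
      field_simp; ring
    have fin : ∀ k : ℕ, (2:ℝ) ^ k ≤ 40 * K := by
      intro k
      have r := R0 k
      have hx := ray (R k) r
      have n : ‖R k • e‖ = R k := by rw [norm_smul, he, Real.norm_of_nonneg r.le, mul_one]
      have d1 := der _ hx (by rw [add_sub_cancel_left, real_inner_smul_right, ae, mul_zero])
      have d2 := der _ hp (by simp)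
      have b := hK _ hx _ hp
      have b2 := (ContinuousLinearMap.le_opNorm (fderiv ℝ (fun x => inner ℝ a (x - p) * g (x - p))
        (p + R k • e) - fderiv ℝ (fun x => inner ℝ a (x - p) * g (x - p)) p) a)
      rw [ContinuousLinearMap.sub_apply, d1, d2, ha, mul_one] at b2
      rw [add_sub_cancel_left] at b b2
      rw [n] at b
      have g0 : g (p - p) = 0 := by simp [g]
      rw [g0, sub_zero, Real.norm_eq_abs] at b2
      have b3 : ‖R k • e‖ ^ 2 * τ k (R k • e) ≤ g (R k • e) :=
        mul_le_mul_of_nonneg_left ((sm _).le_tsum k fun j _ => (τ0 j _).le) (sq_nonneg _)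
      rw [τe] at b3
      have b4 : R k / NN (R k) (R k • e) ≤ 3 / 4 := by
        rw [div_le_iff₀ (N0 k _)]
        have s := NN_sq (R k) (R k • e)
        rw [n] at s
        have := N0 k (R k • e)
        nlinarith
      have b5 : c k * (1 / 4) ≤ K * R k ^ α :=
        (mul_le_mul_of_nonneg_left (by linarith) (c0 k).le).trans
          (b3.trans ((le_abs_self _).trans (b2.trans b)))
      have : 0 < R k ^ α := by positivity
      simp only [c] at b5
      by_contra q
      push Not at q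
      nlinarith [mul_lt_mul_of_pos_right q this]
    obtain ⟨k, hk⟩ := pow_unbounded_of_one_lt (40 * K) (one_lt_two (α := ℝ))
    linarith [fin k]

end Pool.Agent.H.MP_d2274e_an
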